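import Pool.Agent.Lib.MP_7cd5ec_co.Amp.One

/-!
# MP_7cd5ec_co: the asymptotic behaviour of `f(s,t)`

A digraph on the vertices `Fin n` is given by a relation `Adj` (`Adj v w`: there is an arc from `v` to
`w`), as in the frozen statement.
-/

set_option autoImplicit false

namespace Pool.Agent.Results.MP_7cd5ec_co.Asymptotics

/-- The digraph is `(s,t)`-splittable: there is a partition of the vertices into nonempty sets `A`, `Aᶜ`
such that all outdegrees in `D[A]` are at least `s` and all outdegrees in `D[Aᶜ]` are at least `t`. -/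
def Splittable {n : ℕ} (Adj : Fin n → Fin n → Prop) (s t : ℕ) : Prop :=
  ∃ A : Set (Fin n), A.Nonempty ∧ Aᶜ.Nonempty ∧
    (∀ v ∈ A, s ≤ {w : Fin n | w ∈ A ∧ Adj v w}.ncard) ∧
    (∀ v ∈ Aᶜ, t ≤ {w : Fin n | w ∈ Aᶜ ∧ Adj v w}.ncard)

/-- Every (nonempty, finite, simple) digraph with all outdegrees at least `d` is `(s,t)`-splittable, that
is, `f(s,t)` exists and `f(s,t) ≤ d`. -/
def Suffices (s t d : ℕ) : Prop :=
  ∀ (n : ℕ) (Adj : Fin n → Fin n → Prop), 0 < n → (∀ v, ¬ Adj v v) →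
    (∀ v, d ≤ {w : Fin n | Adj v w}.ncard) → Splittable Adj s t

/-- The minimum over the sets `P ∈ M` of the maximum over `(p, q) ∈ P` of `p (s - 1) + q (t - 1)`. -/
def g (M : Finset (Finset (ℕ × ℕ))) (hM : M.Nonempty) (s t : ℕ) : ℕ :=
  M.inf' hM fun P => P.sup fun x => x.1 * (s - 1) + x.2 * (t - 1)

/-- Either `f(s,t)` exists for no `s, t ≥ 2`, or it exists for all `s, t ≥ 2` and there are a finite
nonempty set `M` of finite sets of pairs `(p, q)` of natural numbers and a constant `C` such that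
`g(s,t) < f(s,t) ≤ g(s,t) + C` for all `s, t ≥ 2`, where
`g(s,t) = min_(P ∈ M) max_((p,q) ∈ P) (p (s - 1) + q (t - 1))`; moreover `g(s,s) = R (s - 1)` with a natural
number `R ≥ 3`, so `R (s - 1) < f(s,s) ≤ R (s - 1) + C` for all `s ≥ 2`. -/
theorem result :
    (∀ s t d, 2 ≤ s → 2 ≤ t → ¬ Suffices s t d) ∨
      ∃ (M : Finset (Finset (ℕ × ℕ))) (hM : M.Nonempty) (C R : ℕ), 3 ≤ R ∧
        (∀ s, g M hM s s = R * (s - 1)) ∧
        ∀ s t, 2 ≤ s → 2 ≤ t → ¬ Suffices s t (g M hM s t) ∧ Suffices s t (g M hM s t + C) := by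
  have key : ∀ s t d, Pool.Agent.SplitLB.Bad s t d ↔ ¬ Suffices s t d := by
    intro s t d
    constructor
    · rintro ⟨n, Adj, hn, hirr, hdeg, hsp⟩ h
      exact hsp (h n Adj hn hirr hdeg)
    · intro h
      rw [Suffices] at h
      push Not at h
      obtain ⟨n, Adj, hn, hirr, hdeg, hsp⟩ := h
      exact ⟨n, Adj, hn, hirr, hdeg, hsp⟩
  rcases Pool.Agent.SplitLB.asy with h | ⟨M, hM, C, h3, h⟩
  · exact Or.inl fun s t d hs ht => (key s t d).1 (h s t hs ht d)
  · obtain ⟨R, hR, hRs⟩ := Pool.Agent.SplitLB.inf_diag M hM h3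
    refine Or.inr ⟨M, hM, C, R, hR, hRs, fun s t hs ht => ⟨(key _ _ _).1 (h s t hs ht).1, ?_⟩⟩
    by_contra hc
    exact (h s t hs ht).2 ((key _ _ _).2 hc)

end Pool.Agent.Results.MP_7cd5ec_co.Asymptotics
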