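import Pool.Agent.Lib.MP_7cd5ec_co.Amp.Two

/-!
# MP_7cd5ec_co: the asymptotic behaviour of `f(1,t)`

A digraph on the vertices `Fin n` is given by a relation `Adj` (`Adj v w`: there is an arc from `v` to
`w`), as in the frozen statement.
-/

set_option autoImplicit false

namespace Pool.Agent.Results.MP_7cd5ec_co.AsymptoticsOne

/-- The digraph is `(s,t)`-splittable: there is a partition of the vertices into nonempty sets `A`, `Aᶜ`
such that all outdegrees in `D[A]` are at least `s` and all outdegrees in `D[Aᶜ]` are at least `t`. -/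
def Splittable {n : ℕ} (Adj : Fin n → Fin n → Prop) (s t : ℕ) : Prop :=
  ∃ A : Set (Fin n), A.Nonempty ∧ Aᶜ.Nonempty ∧
    (∀ v ∈ A, s ≤ {w : Fin n | w ∈ A ∧ Adj v w}.ncard) ∧
    (∀ v ∈ Aᶜ, t ≤ {w : Fin n | w ∈ Aᶜ ∧ Adj v w}.ncard)

/-- Every (nonempty, finite, simple) digraph with all outdegrees at least `d` is `(s,t)`-splittable, that
is, `f(s,t)` exists and `f(s,t) ≤ d`. -/
def Suffices (s t d : ℕ) : Prop :=
  ∀ (n : ℕ) (Adj : Fin n → Fin n → Prop), 0 < n → (∀ v, ¬ Adj v v) →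
    (∀ v, d ≤ {w : Fin n | Adj v w}.ncard) → Splittable Adj s t

/-- Either `f(1,t)` exists for no `t ≥ 2`, or there are a natural number `R ≥ 2` and a constant `C` such
that `R (t - 1) < f(1,t) ≤ R (t - 1) + C` for all `t ≥ 2`. -/
theorem result :
    (∀ t d, 2 ≤ t → ¬ Suffices 1 t d) ∨
      ∃ R C : ℕ, 2 ≤ R ∧ ∀ t, 2 ≤ t → ¬ Suffices 1 t (R * (t - 1)) ∧
        Suffices 1 t (R * (t - 1) + C) := by
  have key : ∀ s t d, Pool.Agent.SplitLB.Bad s t d ↔ ¬ Suffices s t d := by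
    intro s t d
    constructor
    · rintro ⟨n, Adj, hn, hirr, hdeg, hsp⟩ h
      exact hsp (h n Adj hn hirr hdeg)
    · intro h
      rw [Suffices] at h
      push Not at h
      obtain ⟨n, Adj, hn, hirr, hdeg, hsp⟩ := h
      exact ⟨n, Adj, hn, hirr, hdeg, hsp⟩
  rcases Pool.Agent.SplitLB.asy1' with h | ⟨R, C, hR, h⟩
  · exact Or.inl fun t d ht => (key 1 t d).1 (h t ht d)
  · refine Or.inr ⟨R, C, hR, fun t ht => ⟨(key _ _ _).1 (h t ht).1, ?_⟩⟩
    by_contra hc
    exact (h t ht).2 ((key _ _ _).2 hc)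

end Pool.Agent.Results.MP_7cd5ec_co.AsymptoticsOne
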