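import Pool.Agent.Lib.MP_7cd5ec_co.Amp.Two

/-!
# MP_7cd5ec_co: the lower bound `max (s + t + 1) (max (3 s - 2) (2 t - 1))` for `f(s,t)`

A digraph on the vertices `Fin n` is given by a relation `Adj` (`Adj v w`: there is an arc from `v` to
`w`), as in the frozen statement.
-/

set_option autoImplicit false

namespace Pool.Agent.Results.MP_7cd5ec_co.DoubleBound

/-- The digraph is `(s,t)`-splittable: there is a partition of the vertices into nonempty sets `A`, `Aᶜ`
such that all outdegrees in `D[A]` are at least `s` and all outdegrees in `D[Aᶜ]` are at least `t`. -/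
def Splittable {n : ℕ} (Adj : Fin n → Fin n → Prop) (s t : ℕ) : Prop :=
  ∃ A : Set (Fin n), A.Nonempty ∧ Aᶜ.Nonempty ∧
    (∀ v ∈ A, s ≤ {w : Fin n | w ∈ A ∧ Adj v w}.ncard) ∧
    (∀ v ∈ Aᶜ, t ≤ {w : Fin n | w ∈ Aᶜ ∧ Adj v w}.ncard)

/-- For all `1 ≤ s ≤ t` there is a simple digraph which is not `(s,t)`-splittable and all of whose
outdegrees are at least `max (s + t) (max (3 (s-1)) (2 (t-1)))`.  So `f(s,t)`, if it exists, is at least
`max (s + t + 1) (max (3 s - 2) (2 t - 1))`. -/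
theorem result : ∀ s t : ℕ, 1 ≤ s → s ≤ t →
    ∃ (n : ℕ) (Adj : Fin n → Fin n → Prop), 0 < n ∧ (∀ v, ¬ Adj v v) ∧
      (∀ v, max (s + t) (max (3 * (s - 1)) (2 * (t - 1))) ≤ {w : Fin n | Adj v w}.ncard) ∧
      ¬ Splittable Adj s t := by
  intro s t hs hst
  obtain ⟨n, Adj, hn, hirr, hdeg, hsp⟩ := Pool.Agent.SplitLB.lin' hs hst
  exact ⟨n, Adj, hn, hirr, hdeg, hsp⟩

end Pool.Agent.Results.MP_7cd5ec_co.DoubleBound
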