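import Pool.Agent.Lib.MP_7cd5ec_co.Core

/-!
# MP_7cd5ec_co: splitting digraphs in which few vertices have large indegree

A finite digraph is given by a relation `E` on a finite type `V`.
-/

set_option autoImplicit false

namespace Pool.Agent.Results.MP_7cd5ec_co.FewHubs

open Finset
open scoped Classical

/-- The number of out-neighbours of `v` in `W`. -/
noncomputable def outIn {V : Type} (E : V → V → Prop) (W : Finset V) (v : V) : ℕ :=
  (W.filter (fun u => E v u)).card

/-- `u` is in `T` and is reached from `v` by a directed path all of whose inner vertices are in `W`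
and not in `T`. -/
def Reach {V : Type} (E : V → V → Prop) (W T : Finset V) (v u : V) : Prop :=
  u ∈ T ∧ ∃ x, Relation.ReflTransGen (fun a b => E a b ∧ b ∈ W ∧ b ∉ T) v x ∧ E x u

/-- The digraph is `(s,t)`-splittable. -/
def Splittable {V : Type} [Fintype V] (E : V → V → Prop) (s t : ℕ) : Prop :=
  ∃ A B : Finset V, A.Nonempty ∧ B.Nonempty ∧ Disjoint A B ∧ A ∪ B = univ ∧
    (∀ v ∈ A, s ≤ outIn E A v) ∧ ∀ v ∈ B, t ≤ outIn E B v

theorem outIn_mono {V : Type} (E : V → V → Prop) {W W' : Finset V} (h : W ⊆ W') (v : V) :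
    outIn E W v ≤ outIn E W' v :=
  card_le_card (filter_subset_filter _ h)

/-- Two disjoint sets with the required outdegrees can be extended to a partition. -/
theorem extend {V : Type} [Fintype V] (E : V → V → Prop) (s t : ℕ) (ht : 1 ≤ t)
    (hdeg : ∀ v, s + t - 1 ≤ outIn E univ v) : ∀ (n : ℕ) (A B : Finset V), A.Nonempty →
    B.Nonempty → Disjoint A B → (∀ v ∈ A, s ≤ outIn E A v) → (∀ v ∈ B, t ≤ outIn E B v) →
    (univ \ (A ∪ B)).card = n → Splittable E s t := by
  intro n
  induction n with
  | zero =>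
    intro A B hA hB hAB h1 h2 hn
    refine ⟨A, B, hA, hB, hAB, ?_, h1, h2⟩
    rw [card_eq_zero, sdiff_eq_empty_iff_subset] at hn
    exact eq_univ_of_forall fun x => hn (mem_univ x)
  | succ n ih =>
    intro A B hA hB hAB h1 h2 hn
    by_cases hc1 : ∃ v ∈ univ \ (A ∪ B), s ≤ outIn E A v
    · obtain ⟨v, hv, hs⟩ := hc1
      have hv' : v ∉ A ∧ v ∉ B := by simpa using hv
      refine ih (insert v A) B (insert_nonempty _ _) hB ?_ ?_ h2 ?_
      · rw [disjoint_insert_left]
        exact ⟨hv'.2, hAB⟩
      · intro x hx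
        rcases mem_insert.mp hx with rfl | hx
        · exact hs.trans (outIn_mono E (subset_insert _ _) _)
        · exact (h1 x hx).trans (outIn_mono E (subset_insert _ _) _)
      · have e : univ \ (insert v A ∪ B) = (univ \ (A ∪ B)).erase v := by
          ext x
          simp only [mem_sdiff, mem_univ, true_and, mem_union, mem_insert, mem_erase, ne_eq]
          tauto
        rw [e, card_erase_of_mem hv, hn]
        rfl
    · by_cases hc2 : ∃ v ∈ univ \ (A ∪ B), t ≤ outIn E B v
      · obtain ⟨v, hv, hs⟩ := hc2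
        have hv' : v ∉ A ∧ v ∉ B := by simpa using hv
        refine ih A (insert v B) hA (insert_nonempty _ _) ?_ h1 ?_ ?_
        · rw [disjoint_insert_right]
          exact ⟨hv'.1, hAB⟩
        · intro x hx
          rcases mem_insert.mp hx with rfl | hx
          · exact hs.trans (outIn_mono E (subset_insert _ _) _)
          · exact (h2 x hx).trans (outIn_mono E (subset_insert _ _) _)
        · have e : univ \ (A ∪ insert v B) = (univ \ (A ∪ B)).erase v := by
            ext x
            simp only [mem_sdiff, mem_univ, true_and, mem_union, mem_insert, mem_erase, ne_eq]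
            tauto
          rw [e, card_erase_of_mem hv, hn]
          rfl
      · push Not at hc1 hc2
        refine ⟨univ \ B, B, ?_, hB, sdiff_disjoint, ?_, ?_, h2⟩
        · obtain ⟨a, ha⟩ := hA
          exact ⟨a, mem_sdiff.mpr ⟨mem_univ _, disjoint_left.mp hAB ha⟩⟩
        · ext x
          simp only [mem_union, mem_sdiff, mem_univ, true_and, iff_true]
          tauto
        · intro v hv
          have hvB : v ∉ B := (mem_sdiff.mp hv).2
          by_cases hvA : v ∈ A
          · refine (h1 v hvA).trans (outIn_mono E (fun x hx => ?_) v)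
            exact mem_sdiff.mpr ⟨mem_univ _, disjoint_left.mp hAB hx⟩
          · have hvR : v ∈ univ \ (A ∪ B) := by simp [hvA, hvB]
            have h3 := hc2 v hvR
            have h4 := hdeg v
            have h5 : outIn E univ v ≤ outIn E (univ \ B) v + outIn E B v := by
              unfold outIn
              refine (card_le_card fun x hx => ?_).trans (card_union_le _ _)
              rw [mem_filter] at hx
              rw [mem_union, mem_filter, mem_filter, mem_sdiff]
              by_cases hxB : x ∈ B
              · exact Or.inr ⟨hxB, hx.2⟩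
              · exact Or.inl ⟨⟨hx.1, hxB⟩, hx.2⟩
            omega

/-- Let `s, t ≥ 1` and `K ≥ 256 (s + t)`, let `D` be a digraph with all outdegrees at least
`s + t - 1`, let `W` be a nonempty set of vertices such that all outdegrees in `D[W]` are at least
`K`, and let `T ⊆ W` be such that every vertex of `W` outside `T` has at most `2^(K/8)`
in-neighbours in `W`, and for every `h ∈ T` there are at most `2^(K/8)` vertices `h' ∈ T` such that
some vertex of `T` is reached both from `h` and from `h'` by paths in `D[W]` without inner vertices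
in `T`. Then `D` is `(s,t)`-splittable. -/
theorem result : ∀ s t K : ℕ, 1 ≤ s → 1 ≤ t → 256 * (s + t) ≤ K →
    ∀ (V : Type) [Fintype V] (E : V → V → Prop), (∀ v, ¬ E v v) →
    (∀ v, s + t - 1 ≤ outIn E univ v) →
    ∀ W T : Finset V, W.Nonempty → T ⊆ W → (∀ v ∈ W, K ≤ outIn E W v) →
    (∀ u ∈ W, u ∉ T → (W.filter (fun v => E v u)).card ≤ 2 ^ (K / 8)) →
    (∀ h ∈ T, (T.filter (fun h' => ∃ u, Reach E W T h u ∧ Reach E W T h' u)).card ≤
      2 ^ (K / 8)) →
    Splittable E s t := by
  intro s t K hs ht hK V _ E _ hdeg W T hW hTW hout hin hT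
  have hne : Nonempty {v // v ∈ W} := ⟨⟨hW.choose, hW.choose_spec⟩⟩
  set T' : Finset {v // v ∈ W} := univ.filter (fun v => v.1 ∈ T) with hT'
  have memT' : ∀ v : {v // v ∈ W}, v ∈ T' ↔ v.1 ∈ T := by
    intro v
    rw [hT', mem_filter]
    simp
  have hreach : ∀ h u : {v // v ∈ W}, Pool.Agent.Lib.MP_7cd5ec_co.RE
      (fun a b : {v // v ∈ W} => E a.1 b.1) T' h u → Reach E W T h.1 u.1 := by
    rintro h u ⟨h1, x, hx, hxu⟩
    refine ⟨(memT' u).mp h1, x.1, ?_, hxu⟩
    refine Relation.ReflTransGen.lift (p := fun a b : V => E a b ∧ b ∈ W ∧ b ∉ T)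
      (fun v : {v // v ∈ W} => v.1) ?_ _ _ hx
    rintro a b ⟨hab, hb⟩
    exact ⟨hab, b.2, fun hbT => hb ((memT' b).mpr hbT)⟩
  obtain ⟨A, B, hA, hB, hAB, h1, h2⟩ := Pool.Agent.Lib.MP_7cd5ec_co.core2
    (fun a b : {v // v ∈ W} => E a.1 b.1) T'
    (K := K) (g := K / 4) (by omega) (2 ^ (K / 8)) (s + t) s t Nat.one_le_two_pow (by omega)
    hs ht (by omega) (by omega) (by omega)
    (by
      intro v
      refine (hout v.1 v.2).trans (le_of_eq ?_)
      unfold outIn
      symm
      refine card_nbij Subtype.val ?_ ?_ ?_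
      · intro u hu
        rw [mem_coe, mem_filter] at hu
        rw [mem_coe, mem_filter]
        exact ⟨u.2, hu.2⟩
      · exact fun a _ b _ h => Subtype.ext h
      · intro u hu
        rw [mem_coe, mem_filter] at hu
        exact ⟨⟨u, hu.1⟩, by rw [mem_coe, mem_filter]; exact ⟨mem_univ _, hu.2⟩, rfl⟩)
    (by
      intro u hu
      have huT : u.1 ∉ T := fun h => hu ((memT' u).mpr h)
      refine le_trans ?_ (hin u.1 u.2 huT)
      refine card_le_card_of_injOn Subtype.val ?_ ?_
      · intro v hv
        rw [mem_coe, mem_filter] at hv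
        rw [mem_coe, mem_filter]
        exact ⟨v.2, hv.2⟩
      · exact fun a _ b _ h => Subtype.ext h)
    (by
      intro h hh
      refine le_trans ?_ (hT h.1 ((memT' h).mp hh))
      refine card_le_card_of_injOn Subtype.val ?_ ?_
      · intro v hv
        rw [mem_coe, mem_filter] at hv
        rw [mem_coe, mem_filter]
        obtain ⟨hv1, u, hu1, hu2⟩ := hv
        exact ⟨(memT' v).mp hv1, u.1, hreach _ _ hu1, hreach _ _ hu2⟩
      · exact fun a _ b _ h => Subtype.ext h)
    (Pool.Agent.Lib.MP_7cd5ec_co.num1 (by omega))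
    (Pool.Agent.Lib.MP_7cd5ec_co.num2 (by omega) hK)
  have hdeg' : ∀ (C : Finset {v // v ∈ W}) (v : {v // v ∈ W}),
      (C.filter (fun u => E v.1 u.1)).card ≤
        outIn E (C.map ⟨Subtype.val, Subtype.val_injective⟩) v.1 := by
    intro C v
    unfold outIn
    refine card_le_card_of_injOn Subtype.val ?_ ?_
    · intro u hu
      rw [mem_coe, mem_filter] at hu
      rw [mem_coe, mem_filter]
      exact ⟨mem_map.mpr ⟨u, hu.1, rfl⟩, hu.2⟩
    · exact fun a _ b _ h => Subtype.ext h
  refine extend E s t ht hdeg _ (A.map ⟨Subtype.val, Subtype.val_injective⟩)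
    (B.map ⟨Subtype.val, Subtype.val_injective⟩) (hA.map) (hB.map) ?_ ?_ ?_ rfl
  · rw [disjoint_map]
    exact hAB
  · intro v hv
    obtain ⟨u, hu, rfl⟩ := mem_map.mp hv
    exact (h1 u hu).trans (hdeg' A u)
  · intro v hv
    obtain ⟨u, hu, rfl⟩ := mem_map.mp hv
    exact (h2 u hu).trans (hdeg' B u)

end Pool.Agent.Results.MP_7cd5ec_co.FewHubs
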